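import Mathlib
import Pool.Agent.Q109.HY.Class
import Pool.Agent.Y388.CF.Basic

set_option autoImplicit false

/-!
# The Havet-Yu conjecture for classes of graphs: shared definitions and lemmas

By helper109 (from the hand-in `MP_b8729f_co.HereditaryClasses`, split by helper96).
-/

namespace Pool.Agent.Q96.SP.HY

open Filter

/-- `TotalLabeling G p l`: the graph `G` has a `(p,1)`-total labeling of span `l`, that is, labels
`0, …, l` for the vertices (`fV`) and the edges (`fE`) such that adjacent vertices get different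
labels, edges sharing an endpoint get different labels, and the labels of a vertex and of an
incident edge differ by at least `p`. -/
def TotalLabeling {V : Type} (G : SimpleGraph V) (p l : ℕ) : Prop :=
  ∃ (fV : V → ℕ) (fE : Sym2 V → ℕ),
    (∀ v, fV v ≤ l) ∧ (∀ e ∈ G.edgeSet, fE e ≤ l) ∧
    (∀ u v, G.Adj u v → fV u ≠ fV v) ∧
    (∀ u v w, G.Adj u v → G.Adj u w → v ≠ w → fE s(u, v) ≠ fE s(u, w)) ∧
    (∀ u v, G.Adj u v → (p : ℤ) ≤ |(fV u : ℤ) - (fE s(u, v) : ℤ)|)

/-- A class of graphs which contains all induced subgraphs of its members. -/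
def Hereditary (Φ : (V : Type) → SimpleGraph V → Prop) : Prop :=
  ∀ (V : Type) (G : SimpleGraph V) (P : Set V), Φ V G → Φ P (G.induce P)

/-- All degrees of `G` are at most `D`. -/
def DegreesLe {V : Type} (G : SimpleGraph V) (D : ℕ) : Prop := ∀ v, (G.neighborSet v).ncard ≤ D

/-- The bound `D + 2 p - 1` of Havet and Yu holds for all finite graphs of the class `Φ` with
degrees at most `D`, for all sufficiently large `D` and all `p ≥ b D`. -/
def HavetYuAbove (Φ : (V : Type) → SimpleGraph V → Prop) (b : ℕ → ℝ) : Prop :=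
  ∃ D₀ : ℕ, ∀ (V : Type) [Fintype V] (G : SimpleGraph V) (D p : ℕ), D₀ ≤ D → DegreesLe G D →
    Φ V G → b D ≤ p → TotalLabeling G p (D + 2 * p - 1)

/-- `c(F) ≤ C`: for every `δ > 0`, all finite graphs without a subgraph isomorphic to `F` and
with degrees at most `D`, `D` sufficiently large, are colourable with `(C + δ) D / log D`
colours. -/
def ColourBound {W : Type} (F : SimpleGraph W) (C : ℝ) : Prop :=
  ∀ δ : ℝ, 0 < δ → ∃ D₀ : ℕ, ∀ (V : Type) [Fintype V] (G : SimpleGraph V) (D : ℕ), D₀ ≤ D →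
    F.Free G → DegreesLe G D → ∃ n : ℕ, G.Colorable n ∧ (n : ℝ) ≤ (C + δ) * (D / Real.log D)

/-- `F` is almost bipartite: it is bipartite, or it becomes bipartite on deleting one vertex. -/
def NearBipartite {W : Type} (F : SimpleGraph W) : Prop :=
  F.Colorable 2 ∨ ∃ x, (F.induce {y | y ≠ x}).Colorable 2

/-- `F` has treewidth at most two: there are a finite tree `T` and sets `B i` of at most three
vertices of `F`, one for each vertex `i` of `T`, such that every edge of `F` lies inside one of
them and, for every vertex `w` of `F`, the `i` with `w ∈ B i` induce a connected (so nonempty)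
subgraph of `T`. -/
def TreewidthAtMostTwo {W : Type} (F : SimpleGraph W) : Prop :=
  ∃ (I : Type) (_ : Fintype I) (T : SimpleGraph I) (B : I → Set W), T.IsTree ∧
    (∀ i, (B i).ncard ≤ 3) ∧ (∀ a b, F.Adj a b → ∃ i, a ∈ B i ∧ b ∈ B i) ∧
    ∀ w, (T.induce {i | w ∈ B i}).Connected

lemma deg_iff {V : Type} [Fintype V] (G : SimpleGraph V) [DecidableRel G.Adj] (D : ℕ) :
    DegreesLe G D ↔ ∀ v, G.degree v ≤ D := by
  unfold DegreesLe
  refine forall_congr' fun v => ?_
  rw [Set.ncard_eq_toFinset_card', ← SimpleGraph.neighborFinset_def,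
      SimpleGraph.card_neighborFinset_eq_degree]

lemma upTo {W : Type} (F : SimpleGraph W) (C : ℝ) (h : ColourBound F C) :
    Pool.Agent.Helper311.Glue.UpTo F C := by
  intro ε hε
  obtain ⟨D₀, h1⟩ := h ε hε
  refine ⟨D₀, ?_⟩
  intro Δ hΔ V _ G _ hF hmax
  exact h1 V G Δ hΔ hF ((deg_iff G Δ).2 fun v => hmax ▸ G.degree_le_maxDegree v)

lemma free_of_upTo {W : Type} (F : SimpleGraph W) (C : ℝ) (hC : 0 ≤ C)
    (h : Pool.Agent.Helper311.Glue.UpTo F C) (ε : ℝ) (hε : 0 < ε) :
    HavetYuAbove (fun _ G => F.Free G) (fun D => (C / 2 + ε) * (D / Real.log D)) := by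
  classical
  obtain ⟨D₀, h1⟩ := Pool.Agent.Q109.HY.free_main F C hC h ε hε
  refine ⟨D₀, ?_⟩
  intro V _ G D p h2 h3 h4 h5
  exact h1 V G D p h2 ((deg_iff G D).1 h3) h4 h5

end Pool.Agent.Q96.SP.HY
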