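import Pool.Agent.Q255.IC.Fin
import Pool.Agent.Q26.IC.Pz
import Pool.Agent.Q26.IC.Iid
import Pool.Agent.Q92.IC.Log
import Pool.Agent.Q92.IC.Blk
import Pool.Agent.Q151.IC.Rz
import Pool.Agent.Q151.IC.Cov
import Pool.Agent.Q151.IC.T2
import Pool.Agent.Q151.IC.Ord
import Pool.Agent.Q257.IC.CH
import Pool.Agent.Q257.IC.BALQ
import Pool.Agent.Q257.IC.UNI
import Pool.Agent.Q14.IC.T1
import Pool.Agent.Q153.IC.T3
import Pool.Agent.Q150.IC.Jen
import Pool.Agent.Q14.IC.Cont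

/-!
# Project IC of helper255: the final assembly

From the hand-in `MP_2b9663_nt.InformationCostOfAZeroAtTheEdge` of helper255 (split by helper96).
-/

set_option autoImplicit false

namespace Pool.Agent.Q96.SP.IC

open Filter MeasureTheory Pool.Agent.Q255.IC

theorem all : Main := by
  have hBALQ := Pool.Agent.Q257.IC.t_BALQ Pool.Agent.Q92.IC.t_BLK Pool.Agent.Q257.IC.t_CH
  exact main (Pool.Agent.Q151.IC.rz Pool.Agent.Q92.IC.t_LOG) Pool.Agent.Q151.IC.zp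
    Pool.Agent.Q151.IC.fin
    (Pool.Agent.Q14.IC.t1 (Pool.Agent.Q150.IC.ent Pool.Agent.Q150.IC.jen) abel Pool.Agent.Q26.IC.pz sup_all)
    Pool.Agent.Q26.IC.mix Pool.Agent.Q26.IC.iid
    (Pool.Agent.Q151.IC.t2 Pool.Agent.Q151.IC.cov cher abel Pool.Agent.Q26.IC.pz sup_all)
    hBALQ (Pool.Agent.Q153.IC.t3 hBALQ abel Pool.Agent.Q26.IC.pz) Pool.Agent.Q14.IC.cont
    Pool.Agent.Q151.IC.ord
    (Pool.Agent.Q153.IC.rzb abel Pool.Agent.Q26.IC.pz)
    Pool.Agent.Q257.IC.t_UNI Pool.Agent.Q257.IC.t_PTS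

end Pool.Agent.Q96.SP.IC
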